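import Pool.Agent.MP_a65686_an.NoDual

set_option autoImplicit false

/-!
A Banach space with an uncountable 1-unconditional basis and a Gateaux differentiable norm such
that no isomorphic normed space has a strictly convex dual.
-/

namespace Pool.Agent.Results.MP_a65686_an.Counterexample

open Pool.Agent.MP_a65686_an Filter Topology

theorem norm_eq_sSup {X Y : Type*} [NormedAddCommGroup X] [NormedSpace ℝ X]
    [NormedAddCommGroup Y] [NormedSpace ℝ Y] (T : X ≃L[ℝ] Y) (φ : X →L[ℝ] ℝ) :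
    ‖φ.comp (T.symm : Y →L[ℝ] X)‖ = sSup ((fun x => φ x) '' {x : X | ‖T x‖ ≤ 1}) := by
  have hle : ∀ r ∈ (fun x => φ x) '' {x : X | ‖T x‖ ≤ 1}, r ≤ ‖φ.comp (T.symm : Y →L[ℝ] X)‖ := by
    rintro _ ⟨x, hx, rfl⟩
    have h1 := (φ.comp (T.symm : Y →L[ℝ] X)).le_opNorm (T x)
    have h2 : (φ.comp (T.symm : Y →L[ℝ] X)) (T x) = φ x := by simp
    rw [h2] at h1
    have h3 : ‖T x‖ ≤ 1 := hx
    have h4 := norm_nonneg (φ.comp (T.symm : Y →L[ℝ] X))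
    calc φ x ≤ ‖φ x‖ := le_abs_self _
      _ ≤ _ := h1
      _ ≤ _ := by nlinarith
  have hb : BddAbove ((fun x => φ x) '' {x : X | ‖T x‖ ≤ 1}) := ⟨_, hle⟩
  have h0 : (0 : ℝ) ∈ (fun x => φ x) '' {x : X | ‖T x‖ ≤ 1} := ⟨0, by simp, by simp⟩
  refine le_antisymm ?_ (csSup_le ⟨0, h0⟩ hle)
  refine ContinuousLinearMap.opNorm_le_of_unit_norm (le_csSup hb h0) fun y hy => ?_
  have h1 : φ (T.symm y) ≤ sSup ((fun x => φ x) '' {x : X | ‖T x‖ ≤ 1}) :=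
    le_csSup hb ⟨T.symm y, by simp [hy], rfl⟩
  have h2 : φ (-T.symm y) ≤ sSup ((fun x => φ x) '' {x : X | ‖T x‖ ≤ 1}) :=
    le_csSup hb ⟨-T.symm y, by simp [hy], rfl⟩
  rw [map_neg] at h2
  change |φ (T.symm y)| ≤ _
  rw [abs_le]
  constructor <;> linarith

theorem bounds {X Y : Type*} [NormedAddCommGroup X] [NormedSpace ℝ X]
    [NormedAddCommGroup Y] [NormedSpace ℝ Y] (T : X ≃L[ℝ] Y) :
    ∃ c C : ℝ, 0 < c ∧ 0 < C ∧ ∀ x : X, c * ‖x‖ ≤ ‖T x‖ ∧ ‖T x‖ ≤ C * ‖x‖ := by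
  have hp : 0 < ‖(T.symm : Y →L[ℝ] X)‖ + 1 := by positivity
  refine ⟨(‖(T.symm : Y →L[ℝ] X)‖ + 1)⁻¹, ‖(T : X →L[ℝ] Y)‖ + 1, inv_pos.mpr hp, by positivity,
    fun x => ⟨?_, ?_⟩⟩
  · rw [inv_mul_le_iff₀ hp]
    have h4 := (T.symm : Y →L[ℝ] X).le_opNorm (T x)
    have h5 : (T.symm : Y →L[ℝ] X) (T x) = x := by simp
    rw [h5] at h4
    nlinarith [norm_nonneg (T x)]
  · have h4 : ‖T x‖ ≤ ‖(T : X →L[ℝ] Y)‖ * ‖x‖ := (T : X →L[ℝ] Y).le_opNorm x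
    nlinarith [norm_nonneg x]

theorem transfer {X Y : Type*} [NormedAddCommGroup X] [NormedSpace ℝ X]
    [NormedAddCommGroup Y] [NormedSpace ℝ Y] (T : X ≃L[ℝ] Y) (φ ψ : X →L[ℝ] ℝ) (hne : φ ≠ ψ)
    (h1 : sSup ((fun x => φ x) '' {x : X | ‖T x‖ ≤ 1}) = 1)
    (h2 : sSup ((fun x => ψ x) '' {x : X | ‖T x‖ ≤ 1}) = 1)
    (h3 : 2 ≤ sSup ((fun x => (φ + ψ) x) '' {x : X | ‖T x‖ ≤ 1})) :
    ∃ φ ψ : Y →L[ℝ] ℝ, φ ≠ ψ ∧ ‖φ‖ = 1 ∧ ‖ψ‖ = 1 ∧ ‖φ + ψ‖ = 2 := by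
  rw [← norm_eq_sSup T] at h1 h2 h3
  refine ⟨φ.comp (T.symm : Y →L[ℝ] X), ψ.comp (T.symm : Y →L[ℝ] X), fun h => hne ?_,
    h1, h2, ?_⟩
  · ext x
    have := congrArg (fun F : Y →L[ℝ] ℝ => F (T x)) h
    simpa using this
  · rw [ContinuousLinearMap.add_comp] at h3
    refine le_antisymm ((norm_add_le _ _).trans ?_) h3
    rw [h1, h2]
    norm_num

theorem coeff_eq {G : Type} [LinearOrder G] {e : G → G → ℕ} {a : G → ℝ} {x : X e}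
    (h : HasSum (fun γ => a γ • bas e γ) x) : a = co x := by
  funext γ
  have h1 := h.mapL (ev (dlt e γ))
  have h2 : (fun δ => ev (dlt e γ) (a δ • bas e δ)) = fun δ => if δ = γ then a γ else 0 := by
    funext δ
    by_cases hδ : δ = γ
    · subst hδ; simp [dlt]
    · simp [dlt, hδ]
  rw [h2] at h1
  exact (hasSum_ite_eq γ (a γ)).unique h1

theorem norm_mono {G : Type} [LinearOrder G] {e : G → G → ℕ} {x y : X e}
    (h : ∀ γ, |co x γ| ≤ |co y γ|) : ‖x‖ ≤ ‖y‖ := by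
  obtain ⟨f, hf⟩ := exists_max x
  let g : W e := ⟨fun γ => if 0 ≤ co y γ then |f.1 γ| else -|f.1 γ|, W_solid f.2 fun γ => by
    split_ifs <;> simp⟩
  have h1 : x.1 f ≤ y.1 g := by
    refine hasSum_le (fun γ => ?_) (hasSum_ev x f) (hasSum_ev y g)
    have h2 : g.1 γ * co y γ = |f.1 γ| * |co y γ| := by
      simp only [g]
      split_ifs with hγ
      · rw [abs_of_nonneg hγ]
      · rw [abs_of_neg (not_le.mp hγ)]; ring
    rw [h2]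
    calc f.1 γ * co x γ ≤ |f.1 γ * co x γ| := le_abs_self _
      _ = |f.1 γ| * |co x γ| := abs_mul _ _
      _ ≤ _ := mul_le_mul_of_nonneg_left (h γ) (abs_nonneg _)
  rw [← hf]
  exact h1.trans ((le_abs_self _).trans (abs_le_norm y g))

universe u

theorem result :
    ∃ (X : Type) (_ : NormedAddCommGroup X) (_ : NormedSpace ℝ X) (_ : CompleteSpace X),
      (∃ (Γ : Type) (e : Γ → X), Uncountable Γ ∧
        (∀ x : X, ∃! a : Γ → ℝ, HasSum (fun γ => a γ • e γ) x) ∧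
        ∀ (a b : Γ → ℝ) (x y : X), HasSum (fun γ => a γ • e γ) x →
          HasSum (fun γ => b γ • e γ) y → (∀ γ, |a γ| ≤ |b γ|) → ‖x‖ ≤ ‖y‖) ∧
      (∀ x : X, x ≠ 0 → ∃ L : X →L[ℝ] ℝ, ∀ h : X,
        Tendsto (fun t : ℝ => (‖x + t • h‖ - ‖x‖) / t) (𝓝[≠] 0) (𝓝 (L h))) ∧
      ∀ (Y : Type u) [NormedAddCommGroup Y] [NormedSpace ℝ Y], Nonempty (X ≃L[ℝ] Y) →
        ∃ φ ψ : Y →L[ℝ] ℝ, φ ≠ ψ ∧ ‖φ‖ = 1 ∧ ‖ψ‖ = 1 ∧ ‖φ + ψ‖ = 2 := by
  obtain ⟨G, _, _, hU, hc, e, he⟩ := exists_index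
  refine ⟨X e, inferInstance, inferInstance, inferInstance, ⟨G, bas e, hU, fun x => ?_, ?_⟩,
    fun x hx => ?_, ?_⟩
  · exact ⟨co x, hasSum_bas x, fun a ha => coeff_eq ha⟩
  · intro a b x y ha hb hab
    rw [coeff_eq ha, coeff_eq hb] at hab
    exact norm_mono hab
  · obtain ⟨L, hL⟩ := gateaux x hx
    refine ⟨L, fun h => ?_⟩
    have h1 := hasDerivAt_iff_tendsto_slope_zero.mp (hL h)
    refine h1.congr fun t => ?_
    simp only [zero_add, zero_smul, add_zero, smul_eq_mul]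
    rw [div_eq_inv_mul]
  · rintro Y _ _ ⟨T⟩
    obtain ⟨c, C, hc0, hC0, hN⟩ := bounds T
    obtain ⟨φ, ψ, hne, h1, h2, h3⟩ := no_dual hc he (fun x => ‖T x‖) c C hc0 hC0 hN
      (fun x y => by rw [map_add]; exact norm_add_le _ _)
      (fun a x => by rw [map_smul, norm_smul, Real.norm_eq_abs])
    exact transfer T φ ψ hne h1 h2 h3

end Pool.Agent.Results.MP_a65686_an.Counterexample
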